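import Pool.Agent.R592.Ba.Defs

/-!
# An embedding of the Baire space in the Cantor space
-/

set_option autoImplicit false
set_option linter.all false

open Cardinal Set Pool.Agent.R592.Ba Filter Topology

namespace Pool.Agent.R596.Ba

/-- The positions of the digit `1`. -/
def pos (f : ℕ → ℕ) : ℕ → ℕ
  | 0 => f 0
  | k + 1 => pos f k + 1 + f (k + 1)

theorem pos_strictMono (f : ℕ → ℕ) : StrictMono (pos f) := by
  refine strictMono_nat_of_lt_succ fun k => ?_
  rw [pos]
  omega

theorem le_pos (f : ℕ → ℕ) (k : ℕ) : k ≤ pos f k := (pos_strictMono f).le_apply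

open Classical in
/-- The embedding. -/
noncomputable def em (f : W) : X := fun n => decide (∃ k, pos f k = n)

theorem em_iff (f : W) (n : ℕ) : em f n = true ↔ ∃ k, pos f k = n := by
  classical
  unfold em
  exact decide_eq_true_iff

theorem pos_congr {f g : ℕ → ℕ} {n : ℕ} (h : ∀ k ≤ n, f k = g k) : pos f n = pos g n := by
  induction n with
  | zero => exact h 0 le_rfl
  | succ n ih =>
    rw [pos, pos, ih fun k hk => h k (hk.trans (Nat.le_succ n)), h (n + 1) le_rfl]

theorem eq_of_pos {f g : ℕ → ℕ} {n : ℕ} (h : ∀ k ≤ n, pos f k = pos g k) : f n = g n := by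
  cases n with
  | zero => exact h 0 le_rfl
  | succ n =>
    have h1 := h n (Nat.le_succ n)
    have h2 := h (n + 1) le_rfl
    rw [pos, pos, h1] at h2
    omega

theorem em_congr {f g : W} {n : ℕ} (h : ∀ k ≤ n, f k = g k) : em f n = em g n := by
  rw [Bool.eq_iff_iff, em_iff, em_iff]
  constructor
  · rintro ⟨k, hk⟩
    refine ⟨k, ?_⟩
    rw [← hk]
    refine (pos_congr fun l hl => h l (hl.trans ?_)).symm
    rw [← hk]
    exact le_pos f k
  · rintro ⟨k, hk⟩
    refine ⟨k, ?_⟩
    rw [← hk]
    refine pos_congr fun l hl => h l (hl.trans ?_)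
    rw [← hk]
    exact le_pos g k

theorem pos_eq {f g : W} {n : ℕ} (h : ∀ i ≤ pos f n, em g i = em f i) :
    ∀ m ≤ n, pos g m = pos f m := by
  intro m
  induction m using Nat.strong_induction_on with
  | _ m ih =>
    intro hm
    have h1 : ∀ k < m, pos g k = pos f k := fun k hk => ih k hk (hk.le.trans hm)
    have h2 : pos f m ≤ pos f n := (pos_strictMono f).monotone hm
    have h3 : em g (pos f m) = true := by
      rw [h _ h2, em_iff]
      exact ⟨m, rfl⟩
    obtain ⟨l, hl⟩ := (em_iff _ _).1 h3
    have h4 : m ≤ l := by
      by_contra hc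
      have h5 := h1 l (not_le.1 hc)
      rw [hl] at h5
      have h6 := (pos_strictMono f).injective h5
      omega
    have h5 : pos g m ≤ pos f m := by
      rw [← hl]
      exact (pos_strictMono g).monotone h4
    have h6 : em f (pos g m) = true := by
      rw [← h _ (h5.trans h2), em_iff]
      exact ⟨m, rfl⟩
    obtain ⟨l', hl'⟩ := (em_iff _ _).1 h6
    have h7 : m ≤ l' := by
      by_contra hc
      have h8 := h1 l' (not_le.1 hc)
      rw [hl'] at h8
      have h9 := (pos_strictMono g).injective h8
      omega
    refine le_antisymm h5 ?_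
    rw [← hl']
    exact (pos_strictMono f).monotone h7

theorem em_continuous : Continuous em := by
  refine continuous_pi fun n => ?_
  rw [continuous_iff_continuousAt]
  intro f
  have h1 : ∀ᶠ g : W in 𝓝 f, ∀ k ∈ Set.Iic n, g k = f k := by
    rw [Filter.eventually_all_finite (Set.finite_Iic n)]
    intro k _
    have h2 : Tendsto (fun g : W => g k) (𝓝 f) (𝓝 (f k)) := (continuous_apply k).tendsto f
    rw [nhds_discrete ℕ, tendsto_pure] at h2
    exact h2
  have h2 : ∀ᶠ g : W in 𝓝 f, em f n = em g n := by
    filter_upwards [h1] with g hg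
    exact em_congr fun k hk => (hg k hk).symm
  exact tendsto_const_nhds.congr' h2

theorem em_embedding : IsEmbedding em := by
  refine ⟨?_, ?_⟩
  · rw [isInducing_iff_nhds]
    intro f
    refine le_antisymm (em_continuous.tendsto f).le_comap ?_
    change Tendsto id (comap em (𝓝 (em f))) (𝓝 f)
    rw [tendsto_pi_nhds]
    intro n
    rw [nhds_discrete ℕ, tendsto_pure]
    have h1 : ∀ᶠ x : X in 𝓝 (em f), ∀ i ∈ Set.Iic (pos f n), x i = em f i := by
      rw [Filter.eventually_all_finite (Set.finite_Iic _)]
      intro i _
      have h2 : Tendsto (fun x : X => x i) (𝓝 (em f)) (𝓝 (em f i)) :=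
        (continuous_apply i).tendsto _
      rw [nhds_discrete Bool, tendsto_pure] at h2
      exact h2
    have h2 : ∀ᶠ g : W in comap em (𝓝 (em f)), ∀ i ∈ Set.Iic (pos f n), em g i = em f i :=
      h1.comap em
    filter_upwards [h2] with g hg
    exact eq_of_pos fun k hk => pos_eq (fun i hi => hg i hi) k hk
  · intro f g h
    funext n
    exact (eq_of_pos fun k hk => pos_eq (f := f) (g := g) (fun i _ => by rw [h]) k hk).symm

theorem range_em : range em = {x : X | {n | x n = true}.Infinite} := by
  ext x
  constructor
  · rintro ⟨f, rfl⟩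
    have h1 : {n | em f n = true} = range (pos f) := by
      ext n
      exact em_iff f n
    change {n | em f n = true}.Infinite
    rw [h1]
    exact Set.infinite_range_of_injective (pos_strictMono f).injective
  · intro hx
    have hx' : (setOf fun n => x n = true).Infinite := hx
    let p : ℕ → ℕ := Nat.nth fun n => x n = true
    have hp : StrictMono p := Nat.nth_strictMono hx'
    have hr : range p = {n | x n = true} := Nat.range_nth_of_infinite hx'
    let f : ℕ → ℕ := fun k => match k with
      | 0 => p 0
      | k + 1 => p (k + 1) - p k - 1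
    have h1 : ∀ k, pos f k = p k := by
      intro k
      induction k with
      | zero => rfl
      | succ k ih =>
        rw [pos, ih]
        change p k + 1 + (p (k + 1) - p k - 1) = p (k + 1)
        have h2 := hp (Nat.lt_succ_self k)
        have h3 : p k < p (k + 1) := h2
        omega
    refine ⟨f, ?_⟩
    funext n
    rw [Bool.eq_iff_iff, em_iff]
    have h2 : (∃ k, pos f k = n) ↔ n ∈ range p := by
      simp only [h1]
      rfl
    rw [h2, hr]
    rfl

/-- A point is the limit of the points that are eventually constant. -/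
theorem mem_closure_of (S : Set X) (b : Bool)
    (h : ∀ (x : X) (n : ℕ), (fun i => if i < n then x i else b) ∈ S) : Dense S := by
  intro x
  have h1 : Tendsto (fun (n : ℕ) (i : ℕ) => if i < n then x i else b) atTop (𝓝 x) := by
    rw [tendsto_pi_nhds]
    intro i
    refine tendsto_const_nhds.congr' ?_
    filter_upwards [eventually_gt_atTop i] with n hn
    rw [if_pos hn]
  exact mem_closure_of_tendsto h1 (Filter.Eventually.of_forall fun n => h x n)

theorem embThm : EmbThm := by
  refine ⟨em, em_embedding, ?_, ?_, ?_, ?_⟩
  · refine mem_closure_of _ true fun x n => ?_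
    rw [range_em]
    refine Set.infinite_of_not_bddAbove ?_
    rintro ⟨N, hN⟩
    have h1 : N + 1 + n ∈ {m : ℕ | (fun i => if i < n then x i else true) m = true} := by
      change (if N + 1 + n < n then x (N + 1 + n) else true) = true
      rw [if_neg (by omega)]
    have h2 := hN h1
    omega
  · refine (Set.countable_range (fun (s : Finset ℕ) (n : ℕ) => decide (n ∈ s))).mono ?_
    intro x hx
    rw [range_em] at hx
    have h1 : {n | x n = true}.Finite := Set.not_infinite.1 hx
    refine ⟨h1.toFinset, ?_⟩
    funext n
    rw [Bool.eq_iff_iff]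
    simp
  · refine mem_closure_of _ false fun x n => ?_
    rw [range_em]
    refine fun h => h ((Set.finite_Iio n).subset fun m hm => ?_)
    by_contra hc
    have hc' : ¬ m < n := hc
    have h1 : (if m < n then x m else false) = true := hm
    rw [if_neg hc'] at h1
    cases h1
  · intro K hK hKr
    have h1 : IsCompact (em ⁻¹' K) :=
      (em_embedding.isInducing.isCompact_preimage_iff hKr).2 hK.isCompact
    have h2 : ∀ n, ∃ g, ∀ f : W, em f ∈ K → f n ≤ g := by
      intro n
      have h3 : IsCompact ((fun f : W => f n) '' (em ⁻¹' K)) := h1.image (continuous_apply n)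
      obtain ⟨g, hg⟩ := h3.bddAbove
      exact ⟨g, fun f hf => hg ⟨f, hf, rfl⟩⟩
    choose g hg using h2
    exact ⟨g, fun f hf n => hg n f hf⟩

end Pool.Agent.R596.Ba
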